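import Mathlib
import Pool.Agent.H21.Rep4

set_option autoImplicit false
open Filter Topology

namespace Pool.Agent.Results.MP_321233_an.OnePoint

theorem result :
    ∃ Λ : ℕ → ℂ, Function.Injective Λ ∧ (∀ n, ‖Λ n‖ < 1) ∧ Tendsto Λ atTop (𝓝 1) ∧
      ∀ f : ℕ → ℂ, Summable (fun n => ‖f n‖ ^ 2) → ∃ c : ℕ → ℂ,
        Tendsto (fun N : ℕ => ∑' n : ℕ,
          ‖f n - ∑ k ∈ Finset.range N, c k * (starRingEnd ℂ (Λ k)) ^ n‖ ^ 2) atTop (𝓝 0) :=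
  Pool.Agent.H21.Rep.main3

end Pool.Agent.Results.MP_321233_an.OnePoint
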